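import Mathlib

set_option autoImplicit false

/-!
# MP_48b6db_an, Q1: multiples of super Delta-points are super Delta-points
-/

namespace Pool.Agent.Results.MP_48b6db_an.RaysOfSuperDelta

/-- `x` (in the closed unit ball) is a super `Δ`-point: `sup_{y ∈ V} ‖x - y‖ = 1 + ‖x‖` for every
relatively weakly open subset `V = B_X ∩ U` of the closed unit ball which contains `x`. -/
def IsSuperDelta (𝕜 : Type*) [RCLike 𝕜] {X : Type*} [NormedAddCommGroup X] [NormedSpace 𝕜 X]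
    (x : X) : Prop :=
  ‖x‖ ≤ 1 ∧ ∀ U : Set (WeakSpace 𝕜 X), IsOpen U → toWeakSpace 𝕜 X x ∈ U →
    sSup {r : ℝ | ∃ y : X, ‖y‖ ≤ 1 ∧ toWeakSpace 𝕜 X y ∈ U ∧ r = ‖x - y‖} = 1 + ‖x‖

/-- **Positive answer to Q1**: if `x` is a super `Δ`-point of the unit sphere and `0 < r < 1`, then
`r x` is a super `Δ`-point. -/
theorem result (𝕜 : Type*) [RCLike 𝕜] (X : Type*) [NormedAddCommGroup X] [NormedSpace 𝕜 X]
    [CompleteSpace X] (x : X) (hx : ‖x‖ = 1) (h : IsSuperDelta 𝕜 x) (r : ℝ) (hr0 : 0 < r)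
    (hr1 : r < 1) : IsSuperDelta 𝕜 ((r : 𝕜) • x) := by
  have hrx : ‖(r : 𝕜) • x‖ = r := by
    rw [norm_smul, hx, mul_one, RCLike.norm_ofReal, abs_of_pos hr0]
  refine ⟨by rw [hrx]; exact hr1.le, fun U hU hxU => ?_⟩
  rw [hrx]
  -- the weakly continuous affine map
  let c : 𝕜 := (((1 + r) / 2 : ℝ) : 𝕜)
  let d : 𝕜 := (((1 - r) / 2 : ℝ) : 𝕜)
  have hc : ‖c‖ = (1 + r) / 2 := by
    simp only [c]; rw [RCLike.norm_ofReal, abs_of_pos (by linarith)]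
  have hd : ‖d‖ = (1 - r) / 2 := by
    simp only [d]; rw [RCLike.norm_ofReal, abs_of_pos (by linarith)]
  have hcd : c - d = (r : 𝕜) := by
    simp only [c, d]; rw [← RCLike.ofReal_sub]; congr 1; ring
  have hcd2 : (r : 𝕜) + d = c := by rw [← hcd]; ring
  let U' : Set (WeakSpace 𝕜 X) := {y | c • y - d • toWeakSpace 𝕜 X x ∈ U}
  have hU' : IsOpen U' := by
    have hcont : Continuous fun y : WeakSpace 𝕜 X => c • y - d • toWeakSpace 𝕜 X x := by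
      fun_prop
    exact hU.preimage hcont
  have hxU' : toWeakSpace 𝕜 X x ∈ U' := by
    have e : c • toWeakSpace 𝕜 X x - d • toWeakSpace 𝕜 X x = toWeakSpace 𝕜 X ((r : 𝕜) • x) := by
      rw [← map_smul, ← map_smul, ← map_sub, ← hcd, sub_smul]
    change c • toWeakSpace 𝕜 X x - d • toWeakSpace 𝕜 X x ∈ U
    rw [e]
    exact hxU
  have hsup := h.2 U' hU' hxU'
  rw [hx] at hsup
  set S : Set ℝ := {s : ℝ | ∃ y : X, ‖y‖ ≤ 1 ∧ toWeakSpace 𝕜 X y ∈ U ∧ s = ‖(r : 𝕜) • x - y‖}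
    with hS
  have hbdd : ∀ s ∈ S, s ≤ 1 + r := by
    rintro s ⟨y, hy, -, rfl⟩
    refine (norm_sub_le _ _).trans ?_
    rw [hrx]; linarith
  have hne : S.Nonempty := ⟨_, (r : 𝕜) • x, by rw [hrx]; exact hr1.le, hxU, rfl⟩
  apply le_antisymm (csSup_le hne hbdd)
  refine le_of_forall_lt fun t ht => ?_
  have ht2 : 2 * t / (1 + r) < 1 + 1 := by
    rw [div_lt_iff₀ (by linarith)]; linarith
  have hne' : Set.Nonempty {s : ℝ | ∃ y : X, ‖y‖ ≤ 1 ∧ toWeakSpace 𝕜 X y ∈ U' ∧ s = ‖x - y‖} :=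
    ⟨_, x, hx.le, hxU', rfl⟩
  rw [← hsup] at ht2
  obtain ⟨s, ⟨y, hy, hyU, rfl⟩, hs⟩ := exists_lt_of_lt_csSup hne' ht2
  have hz : ‖(r : 𝕜) • x - (c • y - d • x)‖ = (1 + r) / 2 * ‖x - y‖ := by
    have e : (r : 𝕜) • x - (c • y - d • x) = c • (x - y) := by
      have e2 : c • x = (r : 𝕜) • x + d • x := by rw [← add_smul, hcd2]
      rw [smul_sub, e2]; abel
    rw [e, norm_smul, hc]
  have hmem : (1 + r) / 2 * ‖x - y‖ ∈ S := by
    refine ⟨c • y - d • x, ?_, ?_, hz.symm⟩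
    · refine (norm_sub_le _ _).trans ?_
      rw [norm_smul, norm_smul, hc, hd, hx]
      nlinarith
    · rw [map_sub, map_smul, map_smul]
      exact hyU
  refine lt_of_lt_of_le ?_ (le_csSup ⟨1 + r, hbdd⟩ hmem)
  rw [div_lt_iff₀ (by linarith)] at hs
  linarith

end Pool.Agent.Results.MP_48b6db_an.RaysOfSuperDelta
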